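import Pool.Agent.H31.DP.Targets

/-!
# The size and the boundary of the domain
-/

set_option autoImplicit false

open Finset Filter Topology

namespace Pool.Agent.H95.DP

open Pool.Agent.H31.DP

theorem ob_mem {M : ℕ} {ω : Fin 3 → ℤ} : ω ∈ Om M ↔ (1 ≤ ω 0 ∧ ω 0 ≤ M) ∧ (1 ≤ ω 1 ∧ ω 1 ≤ M) ∧
    (1 ≤ ω 0 + ω 2 ∧ ω 0 + ω 2 ≤ M) ∧ (1 ≤ ω 1 + ω 2 ∧ ω 1 + ω 2 ≤ M) := by
  unfold Om
  rw [Finset.mem_filter, Fintype.mem_piFinset]
  constructor
  · exact fun h => h.2
  · intro h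
    refine ⟨fun i => ?_, h⟩
    rw [Finset.mem_Icc]
    fin_cases i
    · show -(M : ℤ) ≤ ω 0 ∧ ω 0 ≤ M
      omega
    · show -(M : ℤ) ≤ ω 1 ∧ ω 1 ≤ M
      omega
    · show -(M : ℤ) ≤ ω 2 ∧ ω 2 ≤ M
      omega

theorem ob_ext {ω ω' : Fin 3 → ℤ} (h0 : ω 0 = ω' 0) (h1 : ω 1 = ω' 1) (h2 : ω 2 = ω' 2) :
    ω = ω' := by
  funext i
  fin_cases i
  · exact h0
  · exact h1
  · exact h2

/-- three coordinates, the first in `T`, the others in `[-M, M]` -/
theorem ob_card {M : ℕ} (hM : 0 < M) (T : Finset ℤ) (S : Finset (Fin 3 → ℤ))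
    (a b c : (Fin 3 → ℤ) → ℤ) (ha : ∀ ω ∈ S, a ω ∈ T) (hb : ∀ ω ∈ S, -(M : ℤ) ≤ b ω ∧ b ω ≤ M)
    (hc : ∀ ω ∈ S, -(M : ℤ) ≤ c ω ∧ c ω ≤ M)
    (hi : ∀ ω ω', a ω = a ω' → b ω = b ω' → c ω = c ω' → ω = ω') :
    (S.card : ℝ) ≤ T.card * (9 * (M : ℝ) ^ 2) := by
  have h1 : S.card ≤ (T ×ˢ (Finset.Icc (-(M : ℤ)) M ×ˢ Finset.Icc (-(M : ℤ)) M)).card := by
    refine Finset.card_le_card_of_injOn (fun ω => (a ω, b ω, c ω)) ?_ ?_
    · intro ω hω
      have hω' : ω ∈ S := hω
      simp only [Finset.coe_product, Set.mem_prod, Finset.mem_coe, Finset.mem_Icc]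
      exact ⟨ha ω hω', hb ω hω', hc ω hω'⟩
    · intro ω _ ω' _ h
      simp only [Prod.mk.injEq] at h
      exact hi ω ω' h.1 h.2.1 h.2.2
  rw [Finset.card_product, Finset.card_product, Int.card_Icc] at h1
  have h2 : ((M : ℤ) + 1 - -(M : ℤ)).toNat = 2 * M + 1 := by omega
  rw [h2] at h1
  have h3 : (S.card : ℝ) ≤ T.card * ((2 * M + 1) * (2 * M + 1)) := by exact_mod_cast h1
  have hM1 : (1 : ℝ) ≤ M := by exact_mod_cast hM
  refine h3.trans ?_
  have h4 : (0 : ℝ) ≤ T.card := by positivity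
  refine mul_le_mul_of_nonneg_left ?_ h4
  nlinarith

/-- the exceptional values of a linear form -/
noncomputable def obT (M V : ℕ) : Finset ℤ := Finset.Icc (1 : ℤ) V ∪ Finset.Icc ((M : ℤ) - V + 1) M

theorem obT_card (M V : ℕ) : ((obT M V).card : ℝ) ≤ 2 * V := by
  have h := Finset.card_union_le (Finset.Icc (1 : ℤ) V) (Finset.Icc ((M : ℤ) - V + 1) M)
  rw [Int.card_Icc, Int.card_Icc] at h
  have h1 : ((V : ℤ) + 1 - 1).toNat = V := by omega
  have h2 : ((M : ℤ) + 1 - ((M : ℤ) - V + 1)).toNat = V := by omega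
  rw [h1, h2] at h
  have h3 : (obT M V).card ≤ 2 * V := by
    unfold obT
    omega
  exact_mod_cast h3

/-- few points leave the domain -/
theorem ob_bd (v : Fin 3 → ℤ) {M : ℕ} (hM : 0 < M) :
    (((Om M).filter fun ω => ω + v ∉ Om M).card : ℝ) ≤
      72 * (v 0).natAbs * (M : ℝ) ^ 2 + 72 * (v 1).natAbs * (M : ℝ) ^ 2 +
        72 * (v 2).natAbs * (M : ℝ) ^ 2 := by
  set V : ℕ := (v 0).natAbs + (v 1).natAbs + (v 2).natAbs with hV
  classical
  set S1 := (Om M).filter fun ω => ω 0 ∈ obT M V with hS1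
  set S2 := (Om M).filter fun ω => ω 1 ∈ obT M V with hS2
  set S3 := (Om M).filter fun ω => ω 0 + ω 2 ∈ obT M V with hS3
  set S4 := (Om M).filter fun ω => ω 1 + ω 2 ∈ obT M V with hS4
  have hsub : ((Om M).filter fun ω => ω + v ∉ Om M) ⊆ S1 ∪ S2 ∪ S3 ∪ S4 := by
    intro ω hω
    rw [Finset.mem_filter, ob_mem] at hω
    obtain ⟨hω, hn⟩ := hω
    rw [ob_mem] at hn
    simp only [Pi.add_apply] at hn
    by_contra hcon
    refine hn ?_
    simp only [Finset.mem_union, not_or] at hcon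
    have k : ∀ L : ℤ, 1 ≤ L → L ≤ M → L ∉ obT M V → (V : ℤ) < L ∧ L ≤ (M : ℤ) - V := by
      intro L h1 h2 h3
      simp only [obT, Finset.mem_union, Finset.mem_Icc, not_or, not_and, not_le] at h3
      omega
    have k1 := k _ hω.1.1 hω.1.2 fun h => hcon.1.1.1 (Finset.mem_filter.2 ⟨ob_mem.2 hω, h⟩)
    have k2 := k _ hω.2.1.1 hω.2.1.2 fun h => hcon.1.1.2 (Finset.mem_filter.2 ⟨ob_mem.2 hω, h⟩)
    have k3 := k _ hω.2.2.1.1 hω.2.2.1.2 fun h => hcon.1.2 (Finset.mem_filter.2 ⟨ob_mem.2 hω, h⟩)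
    have k4 := k _ hω.2.2.2.1 hω.2.2.2.2 fun h => hcon.2 (Finset.mem_filter.2 ⟨ob_mem.2 hω, h⟩)
    omega
  have h1 : (S1.card : ℝ) ≤ (obT M V).card * (9 * (M : ℝ) ^ 2) := by
    refine ob_card hM (obT M V) S1 (fun ω => ω 0) (fun ω => ω 1) (fun ω => ω 2) ?_ ?_ ?_ ?_
    · intro ω hω
      exact (Finset.mem_filter.1 hω).2
    · intro ω hω
      have := ob_mem.1 (Finset.mem_filter.1 hω).1
      constructor <;> omega
    · intro ω hω
      have := ob_mem.1 (Finset.mem_filter.1 hω).1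
      constructor <;> omega
    · intro ω ω' h h' h''
      exact ob_ext h h' h''
  have h2 : (S2.card : ℝ) ≤ (obT M V).card * (9 * (M : ℝ) ^ 2) := by
    refine ob_card hM (obT M V) S2 (fun ω => ω 1) (fun ω => ω 0) (fun ω => ω 2) ?_ ?_ ?_ ?_
    · intro ω hω
      exact (Finset.mem_filter.1 hω).2
    · intro ω hω
      have := ob_mem.1 (Finset.mem_filter.1 hω).1
      constructor <;> omega
    · intro ω hω
      have := ob_mem.1 (Finset.mem_filter.1 hω).1
      constructor <;> omega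
    · intro ω ω' h h' h''
      exact ob_ext h' h h''
  have h3 : (S3.card : ℝ) ≤ (obT M V).card * (9 * (M : ℝ) ^ 2) := by
    refine ob_card hM (obT M V) S3 (fun ω => ω 0 + ω 2) (fun ω => ω 0) (fun ω => ω 1) ?_ ?_ ?_ ?_
    · intro ω hω
      exact (Finset.mem_filter.1 hω).2
    · intro ω hω
      have := ob_mem.1 (Finset.mem_filter.1 hω).1
      constructor <;> omega
    · intro ω hω
      have := ob_mem.1 (Finset.mem_filter.1 hω).1
      constructor <;> omega
    · intro ω ω' h h' h''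
      exact ob_ext h' h'' (by omega)
  have h4 : (S4.card : ℝ) ≤ (obT M V).card * (9 * (M : ℝ) ^ 2) := by
    refine ob_card hM (obT M V) S4 (fun ω => ω 1 + ω 2) (fun ω => ω 0) (fun ω => ω 1) ?_ ?_ ?_ ?_
    · intro ω hω
      exact (Finset.mem_filter.1 hω).2
    · intro ω hω
      have := ob_mem.1 (Finset.mem_filter.1 hω).1
      constructor <;> omega
    · intro ω hω
      have := ob_mem.1 (Finset.mem_filter.1 hω).1
      constructor <;> omega
    · intro ω ω' h h' h''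
      exact ob_ext h' h'' (by omega)
  have h5 : (((Om M).filter fun ω => ω + v ∉ Om M).card : ℝ) ≤
      S1.card + S2.card + S3.card + S4.card := by
    have a1 := Finset.card_le_card hsub
    have a2 := Finset.card_union_le (S1 ∪ S2 ∪ S3) S4
    have a3 := Finset.card_union_le (S1 ∪ S2) S3
    have a4 := Finset.card_union_le S1 S2
    have a5 : ((Om M).filter fun ω => ω + v ∉ Om M).card ≤ S1.card + S2.card + S3.card + S4.card := by
      omega
    exact_mod_cast a5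
  have h6 := obT_card M V
  have h7 : ((obT M V).card : ℝ) * (9 * (M : ℝ) ^ 2) ≤ 2 * V * (9 * (M : ℝ) ^ 2) :=
    mul_le_mul_of_nonneg_right h6 (by positivity)
  have h8 : (V : ℝ) = (v 0).natAbs + (v 1).natAbs + (v 2).natAbs := by
    rw [hV]
    push_cast
    ring
  rw [h8] at h7
  nlinarith

theorem pf_OB : StatementOB := by
  constructor
  · intro M hM
    have hM1 : (1 : ℝ) ≤ M := by exact_mod_cast hM
    constructor
    · have h1 : (Finset.Icc (1 : ℤ) ((M + 1) / 2 : ℕ) ×ˢ (Finset.Icc (1 : ℤ) ((M + 1) / 2 : ℕ) ×ˢ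
          Finset.Icc (0 : ℤ) (M / 2 : ℕ))).card ≤ (Om M).card := by
        refine Finset.card_le_card_of_injOn (fun t => ![t.1, t.2.1, t.2.2]) ?_ ?_
        · intro t ht
          simp only [Finset.coe_product, Set.mem_prod, Finset.mem_coe, Finset.mem_Icc] at ht
          rw [Finset.mem_coe, ob_mem]
          simp only [Matrix.cons_val_zero, Matrix.cons_val_one, Matrix.cons_val]
          omega
        · intro t _ t' _ h
          have e0 := congrFun h 0
          have e1 := congrFun h 1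
          have e2 := congrFun h 2
          simp only [Matrix.cons_val_zero, Matrix.cons_val_one, Matrix.cons_val] at e0 e1 e2
          exact Prod.ext e0 (Prod.ext e1 e2)
      rw [Finset.card_product, Finset.card_product, Int.card_Icc, Int.card_Icc] at h1
      have e1 : ((((M + 1) / 2 : ℕ) : ℤ) + 1 - 1).toNat = (M + 1) / 2 := by omega
      have e2 : (((M / 2 : ℕ) : ℤ) + 1 - 0).toNat = M / 2 + 1 := by omega
      rw [e1, e2] at h1
      have h2 : (((M + 1) / 2 : ℕ) : ℝ) * ((((M + 1) / 2 : ℕ) : ℝ) * ((M / 2 + 1 : ℕ) : ℝ)) ≤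
          ((Om M).card : ℝ) := by exact_mod_cast h1
      have h3 : (M : ℝ) / 2 ≤ (((M + 1) / 2 : ℕ) : ℝ) := by
        have : M ≤ 2 * ((M + 1) / 2) := by omega
        have h' : (M : ℝ) ≤ 2 * (((M + 1) / 2 : ℕ) : ℝ) := by exact_mod_cast this
        linarith
      have h4 : (M : ℝ) / 2 ≤ ((M / 2 + 1 : ℕ) : ℝ) := by
        have : M ≤ 2 * (M / 2 + 1) := by omega
        have h' : (M : ℝ) ≤ 2 * ((M / 2 + 1 : ℕ) : ℝ) := by exact_mod_cast this
        linarith
      refine le_trans ?_ h2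
      have h5 : (M : ℝ) / 2 * ((M : ℝ) / 2 * ((M : ℝ) / 2)) ≤
          (((M + 1) / 2 : ℕ) : ℝ) * ((((M + 1) / 2 : ℕ) : ℝ) * ((M / 2 + 1 : ℕ) : ℝ)) := by
        gcongr
      refine le_trans (le_of_eq ?_) h5
      ring
    · have h1 : (Om M).card ≤ (Finset.Icc (1 : ℤ) M ×ˢ (Finset.Icc (1 : ℤ) M ×ˢ
          Finset.Icc (-(M : ℤ)) M)).card := by
        refine Finset.card_le_card_of_injOn (fun ω => (ω 0, ω 1, ω 2)) ?_ ?_
        · intro ω hω
          rw [Finset.mem_coe, ob_mem] at hω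
          simp only [Finset.coe_product, Set.mem_prod, Finset.mem_coe, Finset.mem_Icc]
          omega
        · intro ω _ ω' _ h
          simp only [Prod.mk.injEq] at h
          exact ob_ext h.1 h.2.1 h.2.2
      rw [Finset.card_product, Finset.card_product, Int.card_Icc, Int.card_Icc] at h1
      have e1 : ((M : ℤ) + 1 - 1).toNat = M := by omega
      have e2 : ((M : ℤ) + 1 - -(M : ℤ)).toNat = 2 * M + 1 := by omega
      rw [e1, e2] at h1
      have h2 : ((Om M).card : ℝ) ≤ M * (M * (2 * M + 1)) := by exact_mod_cast h1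
      refine h2.trans ?_
      nlinarith [pow_pos (lt_of_lt_of_le one_pos hM1) 2, mul_pos (lt_of_lt_of_le one_pos hM1)
        (lt_of_lt_of_le one_pos hM1)]
  · intro v
    refine ⟨2 * (72 * (v 0).natAbs + 72 * (v 1).natAbs + 72 * (v 2).natAbs),
      fun M hM f B hB => ?_⟩
    have hB0 : 0 ≤ B := (abs_nonneg _).trans (hB 0)
    have e1 : ∑ ω ∈ Om M, f (ω + v) =
        ∑ ω ∈ (Om M).filter (fun ω => ω + v ∈ Om M), f (ω + v) +
          ∑ ω ∈ (Om M).filter (fun ω => ω + v ∉ Om M), f (ω + v) :=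
      (Finset.sum_filter_add_sum_filter_not _ _ _).symm
    have e2 : ∑ ω ∈ Om M, f ω =
        ∑ ω ∈ (Om M).filter (fun ω => ω + (-v) ∈ Om M), f ω +
          ∑ ω ∈ (Om M).filter (fun ω => ω + (-v) ∉ Om M), f ω :=
      (Finset.sum_filter_add_sum_filter_not _ _ _).symm
    have e3 : ∑ ω ∈ (Om M).filter (fun ω => ω + v ∈ Om M), f (ω + v) =
        ∑ ω ∈ (Om M).filter (fun ω => ω + (-v) ∈ Om M), f ω := by
      refine Finset.sum_bij' (fun ω _ => ω + v) (fun ω _ => ω + (-v)) ?_ ?_ ?_ ?_ ?_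
      · intro ω hω
        rw [Finset.mem_filter] at hω ⊢
        refine ⟨hω.2, ?_⟩
        rw [add_neg_cancel_right]
        exact hω.1
      · intro ω hω
        rw [Finset.mem_filter] at hω ⊢
        refine ⟨hω.2, ?_⟩
        rw [neg_add_cancel_right]
        exact hω.1
      · intro ω _
        rw [add_neg_cancel_right]
      · intro ω _
        rw [neg_add_cancel_right]
      · intro ω _
        rfl
    have b1 : |∑ ω ∈ (Om M).filter (fun ω => ω + v ∉ Om M), f (ω + v)| ≤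
        ((Om M).filter fun ω => ω + v ∉ Om M).card * B := by
      refine (Finset.abs_sum_le_sum_abs _ _).trans ?_
      refine (Finset.sum_le_card_nsmul _ _ B fun ω _ => hB _).trans ?_
      rw [nsmul_eq_mul]
    have b2 : |∑ ω ∈ (Om M).filter (fun ω => ω + (-v) ∉ Om M), f ω| ≤
        ((Om M).filter fun ω => ω + (-v) ∉ Om M).card * B := by
      refine (Finset.abs_sum_le_sum_abs _ _).trans ?_
      refine (Finset.sum_le_card_nsmul _ _ B fun ω _ => hB _).trans ?_
      rw [nsmul_eq_mul]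
    have c1 := ob_bd v hM
    have c2 := ob_bd (-v) hM
    simp only [Pi.neg_apply, Int.natAbs_neg] at c2
    rw [e1, e2, e3]
    have d1 := mul_le_mul_of_nonneg_right c1 hB0
    have d2 := mul_le_mul_of_nonneg_right c2 hB0
    rw [abs_le] at b1 b2 ⊢
    constructor <;> nlinarith [b1.1, b1.2, b2.1, b2.2]

end Pool.Agent.H95.DP
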